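import Pool.Agent.Lib.MP_abd978_an.H58.Core

/-!
# Module BCHAIN: the boundary chain rule
-/

set_option autoImplicit false

open MeasureTheory Metric Set Filter Topology ContDiff
open scoped Gradient RealInnerProductSpace

namespace Pool.Agent.Lib.MP_abd978_an.H58

variable {n : ℕ}

theorem test_bmul {D : Set (E n)} {g ζ ψ : E n → ℝ} {H : ℝ → ℝ} (hg : ContDiff ℝ ∞ g)
    (hζ : ContDiff ℝ ∞ ζ) (hψ : Test D ψ) (hH : ContDiff ℝ ∞ H)
    (hc : HasCompactSupport fun x => ζ x * H (g x)) (hs : tsupport (fun x => ζ x * H (g x)) ⊆ D) :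
    Test D fun x => ζ x * H (g x + ψ x) := by
  have hsub : tsupport (fun x => ζ x * H (g x + ψ x)) ⊆
      tsupport ψ ∪ tsupport fun x => ζ x * H (g x) := by
    refine closure_minimal ?_ ((isClosed_tsupport _).union (isClosed_tsupport _))
    intro x hx
    by_cases h1 : x ∈ tsupport ψ
    · exact Or.inl h1
    · refine Or.inr (subset_tsupport _ ?_)
      have h2 : ψ x = 0 := image_eq_zero_of_notMem_tsupport h1
      have h3 : ζ x * H (g x + ψ x) ≠ 0 := hx
      rw [h2, add_zero] at h3
      exact h3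
  refine ⟨hζ.mul (hH.comp (hg.add hψ.1)), ?_, hsub.trans (union_subset hψ.2.2 hs)⟩
  exact (hψ.2.1.isCompact.union hc.isCompact).of_isClosed_subset (isClosed_tsupport _) hsub

theorem bchain : BchainStatement := by
  intro n μ p D u v g ζ H L hp hμ hD hg h hH hL hζ hζ1 hζ2 hc hs
  obtain ⟨hu1, hv1, ψ, hψ, h1, h2⟩ := h
  have hL0 : 0 ≤ L := (abs_nonneg _).trans (hL 0)
  have hlip := lip_of_deriv (hH.differentiable (by simp)) hL
  have hHd : Continuous (deriv H) := hH.continuous_deriv (by simp)
  have hgm := hg.memLp (μ := μ) (ENNReal.ofReal p)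
  have hgm' := hg.memLp_grad (μ := μ) (ENNReal.ofReal p)
  have hu : MemLp u (ENNReal.ofReal p) μ := by
    have h6 := hu1.add hgm
    have h7 : ((fun x => u x - g x) + g) = u := by
      funext x
      simp
    rwa [h7] at h6
  have hv : MemLp v (ENNReal.ofReal p) μ := by
    have h6 := hv1.add hgm'
    have h7 : ((fun x => v x - ∇ g x) + fun x => ∇ g x) = v := by
      funext x
      simp
    rwa [h7] at h6
  have hφm : ∀ i, AEStronglyMeasurable (fun x => g x + ψ i x) μ := fun i =>
    (hg.1.continuous.add (hψ i).1.continuous).aestronglyMeasurable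
  have hwm : ∀ i, AEStronglyMeasurable (fun x => ∇ g x + ∇ (ψ i) x) μ := fun i =>
    ((continuous_grad hg.1).add (continuous_grad (hψ i).1)).aestronglyMeasurable
  have h1' : Tendsto (fun i => eLpNorm (fun x => (g x + ψ i x) - u x) (ENNReal.ofReal p) μ)
      atTop (𝓝 0) := by
    refine h1.congr fun i => ?_
    congr 1
    funext x
    ring
  have h2' : Tendsto (fun i => eLpNorm (fun x => (∇ g x + ∇ (ψ i) x) - v x)
      (ENNReal.ofReal p) μ) atTop (𝓝 0) := by
    refine h2.congr fun i => ?_
    congr 1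
    funext x
    show ∇ (ψ i) x - (v x - ∇ g x) = (∇ g x + ∇ (ψ i) x) - v x
    abel
  obtain ⟨k, hk, h3⟩ := core (η := ζ) (w := fun i x => ∇ g x + ∇ (ψ i) x) hp hφm hwm hu.1 hv
    hζ.continuous.aestronglyMeasurable hζ1 hHd hL h1' h2'
  have hHu : AEStronglyMeasurable (fun x => H (u x)) μ :=
    hH.continuous.comp_aestronglyMeasurable hu.1
  have hHdu : AEStronglyMeasurable (fun x => deriv H (u x)) μ :=
    hHd.comp_aestronglyMeasurable hu.1
  have hζm : AEStronglyMeasurable ζ μ := hζ.continuous.aestronglyMeasurable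
  have hζgm : AEStronglyMeasurable (fun x => ∇ ζ x) μ :=
    (continuous_grad hζ).aestronglyMeasurable
  have htest : Test D fun x => ζ x * H (g x) := ⟨hζ.mul (hH.comp hg.1), hc, hs⟩
  have hHg : AEStronglyMeasurable (fun x => H (g x)) μ :=
    (hH.continuous.comp hg.1.continuous).aestronglyMeasurable
  have hHdg : AEStronglyMeasurable (fun x => deriv H (g x)) μ :=
    (hHd.comp hg.1.continuous).aestronglyMeasurable
  have hgrad : ∀ x, ∇ (fun y => ζ y * H (g y)) x =
      (ζ x * deriv H (g x)) • ∇ g x + H (g x) • ∇ ζ x := by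
    intro x
    have h6 : DifferentiableAt ℝ g x := hg.1.differentiable (by simp) x
    have h7 : ∇ (fun y => H (g y)) x = deriv H (g x) • ∇ g x :=
      grad_comp h6 (hH.differentiable (by simp) _)
    have h8 : ∇ (fun y => ζ y * H (g y)) x =
        ζ x • ∇ (fun y => H (g y)) x + H (g x) • ∇ ζ x :=
      grad_mul (hζ.differentiable (by simp) x)
        ((hH.differentiable (by simp) (g x)).comp x h6)
    rw [h8, h7, smul_smul]
  refine ⟨?_, ?_, fun i x => ζ x * H (g x + ψ (k i) x),
    fun i => test_bmul hg.1 hζ (hψ _) hH hc hs, ?_, ?_⟩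
  · have h4 : MemLp (fun x => ζ x * (H (u x) - H (g x))) (ENNReal.ofReal p) μ := by
      refine hu1.of_le_mul (c := L * L) (hζm.mul (hHu.sub hHg)) (Eventually.of_forall fun x => ?_)
      rw [norm_mul, mul_assoc]
      exact mul_le_mul (hζ1 _) (hlip _ _) (norm_nonneg _) hL0
    have h5 := h4.add (htest.memLp (μ := μ) (ENNReal.ofReal p))
    refine h5.ae_eq (Eventually.of_forall fun x => ?_)
    show ζ x * (H (u x) - H (g x)) + ζ x * H (g x) = ζ x * H (u x)
    ring
  · have h4 : MemLp (fun x => (H (u x) - H (g x)) • ∇ ζ x) (ENNReal.ofReal p) μ := by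
      refine hu1.of_le_mul (c := L * L) ((hHu.sub hHg).smul hζgm)
        (Eventually.of_forall fun x => ?_)
      rw [norm_smul]
      calc ‖H (u x) - H (g x)‖ * ‖∇ ζ x‖ ≤ (L * |u x - g x|) * L :=
            mul_le_mul (hlip _ _) (hζ2 _) (norm_nonneg _) (by positivity)
        _ = L * L * ‖u x - g x‖ := by rw [Real.norm_eq_abs]; ring
    have h5 : MemLp (fun x => (ζ x * deriv H (g x)) • ∇ g x) (ENNReal.ofReal p) μ := by
      refine hgm'.of_le_mul (c := L * L) ((hζm.mul hHdg).smul hgm'.1)
        (Eventually.of_forall fun x => ?_)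
      rw [norm_smul, norm_mul]
      refine mul_le_mul_of_nonneg_right ?_ (norm_nonneg _)
      exact mul_le_mul (hζ1 _) (hL _) (norm_nonneg _) hL0
    have h6 : MemLp (fun x => (ζ x * deriv H (u x)) • v x) (ENNReal.ofReal p) μ := by
      refine hv.of_le_mul (c := L * L) ((hζm.mul hHdu).smul hv.1)
        (Eventually.of_forall fun x => ?_)
      rw [norm_smul, norm_mul]
      refine mul_le_mul_of_nonneg_right ?_ (norm_nonneg _)
      exact mul_le_mul (hζ1 _) (hL _) (norm_nonneg _) hL0
    have h7 := ((h4.add (htest.memLp_grad (μ := μ) (ENNReal.ofReal p))).sub h5).add h6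
    refine h7.ae_eq (Eventually.of_forall fun x => ?_)
    show (H (u x) - H (g x)) • ∇ ζ x + ∇ (fun y => ζ y * H (g y)) x -
      (ζ x * deriv H (g x)) • ∇ g x + (ζ x * deriv H (u x)) • v x =
      H (u x) • ∇ ζ x + (ζ x * deriv H (u x)) • v x
    rw [hgrad, sub_smul]
    abel
  · refine tendsto_of_le (B := L * L) (fun i => Eventually.of_forall fun x => ?_)
      (h1'.comp hk.tendsto_atTop)
    rw [← mul_sub, norm_mul, mul_assoc]
    exact mul_le_mul (hζ1 _) (hlip _ _) (norm_nonneg _) hL0
  · have h4 : Tendsto (fun i => eLpNorm (fun x => (H (g x + ψ (k i) x) - H (u x)) • ∇ ζ x)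
        (ENNReal.ofReal p) μ) atTop (𝓝 0) := by
      refine tendsto_of_le (B := L * L) (fun i => Eventually.of_forall fun x => ?_)
        (h1'.comp hk.tendsto_atTop)
      rw [norm_smul]
      calc ‖H (g x + ψ (k i) x) - H (u x)‖ * ‖∇ ζ x‖ ≤ (L * |(g x + ψ (k i) x) - u x|) * L :=
            mul_le_mul (hlip _ _) (hζ2 _) (norm_nonneg _) (by positivity)
        _ = L * L * |(g x + ψ (k i) x) - u x| := by ring
    have h5 := tendsto_add hp (fun i => ?_) (fun i => ?_) h4 h3
    · refine h5.congr fun i => ?_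
      congr 1
      funext x
      have h6 : DifferentiableAt ℝ g x := hg.1.differentiable (by simp) x
      have h6' : DifferentiableAt ℝ (ψ (k i)) x := (hψ (k i)).1.differentiable (by simp) x
      have h7 : ∇ (fun y => H (g y + ψ (k i) y)) x =
          deriv H (g x + ψ (k i) x) • ∇ (fun y => g y + ψ (k i) y) x :=
        grad_comp (f := fun y => g y + ψ (k i) y) (h6.add h6') (hH.differentiable (by simp) _)
      have h8 : ∇ (fun y => ζ y * H (g y + ψ (k i) y)) x =
          ζ x • ∇ (fun y => H (g y + ψ (k i) y)) x + H (g x + ψ (k i) x) • ∇ ζ x :=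
        grad_mul (hζ.differentiable (by simp) x)
          ((hH.differentiable (by simp) (g x + ψ (k i) x)).comp x (h6.add h6'))
      show (H (g x + ψ (k i) x) - H (u x)) • ∇ ζ x + ((ζ x * deriv H (g x + ψ (k i) x)) •
        (∇ g x + ∇ (ψ (k i)) x) - (ζ x * deriv H (u x)) • v x) =
        ∇ (fun y => ζ y * H (g y + ψ (k i) y)) x - (H (u x) • ∇ ζ x + (ζ x * deriv H (u x)) • v x)
      rw [h8, h7, grad_add h6 h6', smul_smul, sub_smul]
      abel
    · exact ((hH.continuous.comp_aestronglyMeasurable (hφm _)).sub hHu).smul hζgm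
    · exact (((hζm.mul (hHd.comp_aestronglyMeasurable (hφm _))).smul (hwm _)).sub
        ((hζm.mul hHdu).smul hv.1))

end Pool.Agent.Lib.MP_abd978_an.H58
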