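import Pool.Agent.Lib.MP_abd978_an.H58.Core

/-!
# Module CHAIN: `η Θ(u)` is a limit of test functions
-/

set_option autoImplicit false

open MeasureTheory Metric Set Filter Topology ContDiff
open scoped Gradient RealInnerProductSpace

namespace Pool.Agent.Lib.MP_abd978_an.H58

variable {n : ℕ}

theorem test_mul {D : Set (E n)} {η φ : E n → ℝ} {T : ℝ → ℝ} (hD : IsOpen D) (hη : Test D η)
    (hφ : ContDiffOn ℝ ∞ φ D) (hT : ContDiff ℝ ∞ T) : Test D fun x => η x * T (φ x) := by
  refine ⟨?_, hη.2.1.mul_right, (tsupport_mul_subset_left).trans hη.2.2⟩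
  rw [contDiff_iff_contDiffAt]
  intro x
  by_cases hx : x ∈ D
  · exact hη.1.contDiffAt.mul (hT.contDiffAt.comp x (hφ.contDiffAt (hD.mem_nhds hx)))
  · have hx' : x ∉ tsupport η := fun h => hx (hη.2.2 h)
    have h1 : (fun y => η y * T (φ y)) =ᶠ[𝓝 x] fun _ => 0 := by
      filter_upwards [notMem_tsupport_iff_eventuallyEq.1 hx'] with y hy
      rw [hy]
      simp
    exact contDiffAt_const.congr_of_eventuallyEq h1

theorem chain : ChainStatement := by
  intro n μ p D u v c d Θ η hp hμ hD hu hcd hΘ hη
  obtain ⟨T, hT, hTc, hT1, hT2⟩ := exists_ext Θ c d hΘ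
  obtain ⟨L, hL0, hL1, hL2⟩ := exists_deriv_bound hT hTc
  obtain ⟨K, hK0, hK1, hK2⟩ := hη.exists_bound
  obtain ⟨hu1, hv1, φ, hφ, h1, h2⟩ := hu
  have hDm : MeasurableSet D := hD.measurableSet
  have hlip := lip_of_deriv (hT.differentiable (by simp)) hL2
  have hηc : Continuous η := hη.1.continuous
  have hTd : Continuous (deriv T) := hT.continuous_deriv (by simp)
  have hφm : ∀ i, AEStronglyMeasurable (φ i) (μ.restrict D) := fun i =>
    (hφ i).continuousOn.aestronglyMeasurable hDm
  obtain ⟨k, hk, h3⟩ := core (η := η) (w := fun i x => ∇ (φ i) x) hp hφm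
    (fun i => (measurable_grad (φ i)).aestronglyMeasurable) hu1.1 hv1 hηc.aestronglyMeasurable
    hK1 hTd hL2 h1 h2
  have hout : ∀ x ∉ D, η x = 0 := fun x hx => image_eq_zero_of_notMem_tsupport fun h => hx (hη.2.2 h)
  have hout' : ∀ x ∉ D, ∇ η x = 0 := fun x hx => grad_eq_zero_of_notMem fun h => hx (hη.2.2 h)
  have hfun : (fun x => Θ (u x) • ∇ η x + (η x * deriv Θ (u x)) • v x) =
      fun x => T (u x) • ∇ η x + (η x * deriv T (u x)) • v x := by
    funext x
    rw [hT1 _ (hcd x), hT2 _ (hcd x)]
  have hfun' : (fun x => η x * Θ (u x)) = fun x => η x * T (u x) := by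
    funext x
    rw [hT1 _ (hcd x)]
  rw [hfun, hfun']
  have hTu : AEStronglyMeasurable (fun x => T (u x)) (μ.restrict D) :=
    hT.continuous.comp_aestronglyMeasurable hu1.1
  have hTdu : AEStronglyMeasurable (fun x => deriv T (u x)) (μ.restrict D) :=
    hTd.comp_aestronglyMeasurable hu1.1
  have hgm : AEStronglyMeasurable (fun x => ∇ η x) (μ.restrict D) :=
    (continuous_grad hη.1).aestronglyMeasurable
  refine ⟨?_, ?_, fun i x => η x * T (φ (k i) x), fun i => test_mul hD hη (hφ _) hT, ?_, ?_⟩
  · refine memLp_restrict hDm (fun x hx => by simp [hout x hx]) ?_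
    refine ((hη.memLp (μ := μ) (ENNReal.ofReal p)).restrict D).of_le_mul (c := L)
      (hηc.aestronglyMeasurable.mul hTu) (Eventually.of_forall fun x => ?_)
    rw [norm_mul, mul_comm]
    exact mul_le_mul_of_nonneg_right (hL1 _) (norm_nonneg _)
  · refine memLp_restrict hDm (fun x hx => by simp [hout x hx, hout' x hx]) ?_
    refine MemLp.add ?_ ?_
    · refine ((hη.memLp_grad (μ := μ) (ENNReal.ofReal p)).restrict D).of_le_mul (c := L)
        (hTu.smul hgm) (Eventually.of_forall fun x => ?_)
      rw [norm_smul]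
      exact mul_le_mul_of_nonneg_right (hL1 _) (norm_nonneg _)
    · refine hv1.of_le_mul (c := K * L)
        ((hηc.aestronglyMeasurable.mul hTdu).smul hv1.1) (Eventually.of_forall fun x => ?_)
      rw [norm_smul, norm_mul]
      refine mul_le_mul_of_nonneg_right ?_ (norm_nonneg _)
      exact mul_le_mul (hK1 _) (hL2 _) (norm_nonneg _) hK0.le
  · have h4 : Tendsto (fun i => eLpNorm (fun x => η x * T (φ (k i) x) - η x * T (u x))
        (ENNReal.ofReal p) (μ.restrict D)) atTop (𝓝 0) := by
      refine tendsto_of_le (B := K * L) (fun i => Eventually.of_forall fun x => ?_)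
        (h1.comp hk.tendsto_atTop)
      rw [← mul_sub, norm_mul, mul_assoc]
      exact mul_le_mul (hK1 _) (hlip _ _) (norm_nonneg _) hK0.le
    refine h4.congr fun i => ?_
    exact (eLpNorm_restrict hDm fun x hx => by simp [hout x hx]).symm
  · have h4 : Tendsto (fun i => eLpNorm (fun x => (T (φ (k i) x) - T (u x)) • ∇ η x)
        (ENNReal.ofReal p) (μ.restrict D)) atTop (𝓝 0) := by
      refine tendsto_of_le (B := L * K) (fun i => Eventually.of_forall fun x => ?_)
        (h1.comp hk.tendsto_atTop)
      rw [norm_smul]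
      calc ‖T (φ (k i) x) - T (u x)‖ * ‖∇ η x‖ ≤ (L * |φ (k i) x - u x|) * K :=
            mul_le_mul (hlip _ _) (hK2 _) (norm_nonneg _) (by positivity)
        _ = L * K * |φ (k i) x - u x| := by ring
    have h5 := tendsto_add hp (fun i => ?_) (fun i => ?_) h4 h3
    · refine h5.congr fun i => ?_
      rw [eLpNorm_restrict (D := D) hDm (f := fun x => ∇ (fun x => η x * T (φ (k i) x)) x -
        (T (u x) • ∇ η x + (η x * deriv T (u x)) • v x)) ?_]
      · refine eLpNorm_congr_ae ?_
        refine (ae_restrict_iff' hDm).2 (Eventually.of_forall fun x hx => ?_)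
        have h6 : DifferentiableAt ℝ (φ (k i)) x :=
          ((hφ (k i)).contDiffAt (hD.mem_nhds hx)).differentiableAt (by simp)
        have h7 : ∇ (fun y => T (φ (k i) y)) x = deriv T (φ (k i) x) • ∇ (φ (k i)) x :=
          grad_comp h6 (hT.differentiable (by simp) _)
        have h8 : ∇ (fun y => η y * T (φ (k i) y)) x =
            η x • ∇ (fun y => T (φ (k i) y)) x + T (φ (k i) x) • ∇ η x :=
          grad_mul (hη.1.differentiable (by simp) x)
            ((hT.differentiable (by simp) (φ (k i) x)).comp x h6)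
        show (T (φ (k i) x) - T (u x)) • ∇ η x + ((η x * deriv T (φ (k i) x)) • ∇ (φ (k i)) x -
          (η x * deriv T (u x)) • v x) = ∇ (fun y => η y * T (φ (k i) y)) x -
          (T (u x) • ∇ η x + (η x * deriv T (u x)) • v x)
        rw [h8, h7, smul_smul, sub_smul]
        abel
      · intro x hx
        have h9 : ∇ (fun x => η x * T (φ (k i) x)) x = 0 := by
          refine grad_eq_zero_of_notMem fun h => ?_
          exact hx ((test_mul hD hη (hφ (k i)) hT).2.2 h)
        rw [h9]
        simp [hout x hx, hout' x hx]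
    · exact ((hT.continuous.comp_aestronglyMeasurable (hφm _)).sub hTu).smul hgm
    · refine (((hηc.aestronglyMeasurable.mul (hTd.comp_aestronglyMeasurable (hφm _))).smul
        (measurable_grad _).aestronglyMeasurable).sub
        ((hηc.aestronglyMeasurable.mul hTdu).smul hv1.1))

end Pool.Agent.Lib.MP_abd978_an.H58
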