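import Pool.Agent.Lib.MP_abd978_an.Interfaces

/-!
# Convergence of `S(φ_i) w_i` in `L^p`, extension of functions which are smooth near an interval
-/

set_option autoImplicit false

open MeasureTheory Metric Set Filter Topology ContDiff
open scoped Gradient RealInnerProductSpace Manifold

namespace Pool.Agent.Lib.MP_abd978_an.H58

variable {n : ℕ}

/-- extension of a function which is smooth near `[c, d]` -/
theorem exists_ext (Θ : ℝ → ℝ) (c d : ℝ) (h : SmoothNear Θ c d) :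
    ∃ T : ℝ → ℝ, ContDiff ℝ ∞ T ∧ HasCompactSupport T ∧ (∀ t ∈ Icc c d, T t = Θ t) ∧
      ∀ t ∈ Icc c d, deriv T t = deriv Θ t := by
  obtain ⟨O, hO, hcd, hΘ⟩ := h
  have hO'o : IsOpen (O ∩ Ioo (c - 1) (d + 1)) := hO.inter isOpen_Ioo
  have hcd' : Icc c d ⊆ O ∩ Ioo (c - 1) (d + 1) := fun t ht =>
    ⟨hcd ht, by constructor <;> linarith [ht.1, ht.2]⟩
  obtain ⟨f, hf0, hf1, hf⟩ := exists_contMDiffMap_zero_one_nhds_of_isClosed (n := ⊤) (M := ℝ)
    𝓘(ℝ, ℝ) (s := (O ∩ Ioo (c - 1) (d + 1))ᶜ) (t := Icc c d) hO'o.isClosed_compl isClosed_Icc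
    (Set.disjoint_compl_left_iff_subset.2 hcd')
  have hfc : ContDiff ℝ ∞ f := f.contMDiff.contDiff
  have hone : ∀ t ∈ Icc c d, (fun s => f s * Θ s) =ᶠ[𝓝 t] Θ := by
    intro t ht
    have h1 : ∀ᶠ s in 𝓝 t, f s = 1 := eventually_nhdsSet_iff_forall.1 hf1 t ht
    filter_upwards [h1] with s hs
    rw [hs, one_mul]
  refine ⟨fun t => f t * Θ t, ?_, ?_, ?_, ?_⟩
  · rw [contDiff_iff_contDiffAt]
    intro t
    by_cases ht : t ∈ O ∩ Ioo (c - 1) (d + 1)
    · exact hfc.contDiffAt.mul (hΘ.contDiffAt (hO.mem_nhds ht.1))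
    · have h1 : ∀ᶠ s in 𝓝 t, f s = 0 := eventually_nhdsSet_iff_forall.1 hf0 t ht
      have h2 : (fun s => f s * Θ s) =ᶠ[𝓝 t] fun _ => 0 := by
        filter_upwards [h1] with s hs
        rw [hs, zero_mul]
      exact contDiffAt_const.congr_of_eventuallyEq h2
  · refine HasCompactSupport.of_support_subset_isCompact (K := Icc (c - 1) (d + 1)) isCompact_Icc ?_
    intro t ht
    by_contra hcon
    apply ht
    have h1 : t ∈ (O ∩ Ioo (c - 1) (d + 1))ᶜ := fun h2 => hcon ⟨h2.2.1.le, h2.2.2.le⟩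
    have h3 : f t = 0 := (eventually_nhdsSet_iff_forall.1 hf0 t h1).self_of_nhds
    show f t * Θ t = 0
    rw [h3, zero_mul]
  · intro t ht
    exact (hone t ht).self_of_nhds
  · intro t ht
    exact (hone t ht).deriv_eq

theorem lip_of_deriv {T : ℝ → ℝ} {L : ℝ} (hT : Differentiable ℝ T) (hL : ∀ t, |deriv T t| ≤ L)
    (a b : ℝ) : |T a - T b| ≤ L * |a - b| := by
  have h := Convex.norm_image_sub_le_of_norm_deriv_le (f := T) (s := univ) (C := L) (x := b)
    (y := a) (fun x _ => hT x) (fun x _ => hL x) convex_univ (mem_univ _) (mem_univ _)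
  simpa [Real.norm_eq_abs] using h

theorem exists_deriv_bound {T : ℝ → ℝ} (hT : ContDiff ℝ ∞ T) (hc : HasCompactSupport T) :
    ∃ L, 0 < L ∧ (∀ t, |T t| ≤ L) ∧ ∀ t, |deriv T t| ≤ L := by
  obtain ⟨C1, h1⟩ := hc.exists_bound_of_continuous hT.continuous
  obtain ⟨C2, h2⟩ := hc.deriv.exists_bound_of_continuous (hT.continuous_deriv (by simp))
  refine ⟨max C1 (max C2 1), by positivity, fun x => ?_, fun x => ?_⟩
  · exact (h1 x).trans (le_max_left _ _)
  · exact (h2 x).trans ((le_max_left _ _).trans (le_max_right _ _))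

theorem ofReal_ne {p : ℝ} (hp : 1 < p) : ENNReal.ofReal p ≠ 0 := by
  have := one_le_ofReal hp
  intro h0
  rw [h0] at this
  simp at this

/-- dominated convergence in `L^p` -/
theorem dom {ν : Measure (E n)} {p : ℝ} (hp : 1 < p) {F G : Type} [NormedAddCommGroup F]
    [NormedAddCommGroup G] {g : ℕ → E n → F} {v : E n → G} {B : ℝ}
    (hg : ∀ i, AEStronglyMeasurable (g i) ν) (hv : MemLp v (ENNReal.ofReal p) ν)
    (hb : ∀ i, ∀ᵐ x ∂ν, ‖g i x‖ ≤ B * ‖v x‖)
    (hl : ∀ᵐ x ∂ν, Tendsto (fun i => g i x) atTop (𝓝 0)) :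
    Tendsto (fun i => eLpNorm (g i) (ENNReal.ofReal p) ν) atTop (𝓝 0) := by
  have hp0 := ofReal_ne hp
  have hpt : ENNReal.ofReal p ≠ ⊤ := ENNReal.ofReal_ne_top
  have hpr : 0 < (ENNReal.ofReal p).toReal := ENNReal.toReal_pos hp0 hpt
  have hw : MemLp (fun x => B * ‖v x‖) (ENNReal.ofReal p) ν := hv.norm.const_mul B
  simp_rw [eLpNorm_eq_lintegral_rpow_enorm_toReal hp0 hpt]
  have h1 : Tendsto (fun i => ∫⁻ x, ‖g i x‖ₑ ^ (ENNReal.ofReal p).toReal ∂ν) atTop
      (𝓝 (∫⁻ _, 0 ∂ν)) := by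
    refine tendsto_lintegral_of_dominated_convergence'
      (fun x => ‖B * ‖v x‖‖ₑ ^ (ENNReal.ofReal p).toReal) ?_ ?_ ?_ ?_
    · intro i
      exact (hg i).enorm.pow_const _
    · intro i
      filter_upwards [hb i] with x hx
      refine ENNReal.rpow_le_rpow ?_ hpr.le
      rw [enorm_le_iff_norm_le]
      exact hx.trans (le_abs_self _)
    · exact (lintegral_rpow_enorm_lt_top_of_eLpNorm_lt_top hp0 hpt hw.2).ne
    · filter_upwards [hl] with x hx
      have h2 : Tendsto (fun i => ‖g i x‖ₑ) atTop (𝓝 0) := by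
        have h3 := (continuous_enorm.tendsto (0 : F)).comp hx
        simpa [Function.comp_def] using h3
      have h4 := (ENNReal.continuous_rpow_const (y := (ENNReal.ofReal p).toReal)).tendsto 0
      rw [ENNReal.zero_rpow_of_pos hpr] at h4
      exact h4.comp h2
  rw [lintegral_zero] at h1
  have h5 := (ENNReal.continuous_rpow_const (y := 1 / (ENNReal.ofReal p).toReal)).tendsto 0
  rw [ENNReal.zero_rpow_of_pos (by positivity)] at h5
  exact h5.comp h1

/-- bounded factors -/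
theorem tendsto_of_le {ν : Measure (E n)} {P : ENNReal} {F G : Type} [NormedAddCommGroup F]
    [NormedAddCommGroup G] {g : ℕ → E n → F} {h : ℕ → E n → G} {B : ℝ}
    (hb : ∀ i, ∀ᵐ x ∂ν, ‖g i x‖ ≤ B * ‖h i x‖)
    (hl : Tendsto (fun i => eLpNorm (h i) P ν) atTop (𝓝 0)) :
    Tendsto (fun i => eLpNorm (g i) P ν) atTop (𝓝 0) := by
  have h1 : Tendsto (fun i => ENNReal.ofReal B * eLpNorm (h i) P ν) atTop (𝓝 0) := by
    have := ENNReal.Tendsto.const_mul (a := ENNReal.ofReal B) hl (Or.inr ENNReal.ofReal_ne_top)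
    simpa using this
  exact tendsto_of_tendsto_of_tendsto_of_le_of_le tendsto_const_nhds h1 (fun _ => bot_le)
    fun i => eLpNorm_le_mul_eLpNorm_of_ae_le_mul (hb i) P

/-- sums -/
theorem tendsto_add {ν : Measure (E n)} {p : ℝ} (hp : 1 < p) {F : Type} [NormedAddCommGroup F]
    {g h : ℕ → E n → F}
    (hg : ∀ i, AEStronglyMeasurable (g i) ν) (hh : ∀ i, AEStronglyMeasurable (h i) ν)
    (hl : Tendsto (fun i => eLpNorm (g i) (ENNReal.ofReal p) ν) atTop (𝓝 0))
    (hl' : Tendsto (fun i => eLpNorm (h i) (ENNReal.ofReal p) ν) atTop (𝓝 0)) :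
    Tendsto (fun i => eLpNorm (fun x => g i x + h i x) (ENNReal.ofReal p) ν) atTop (𝓝 0) := by
  have h1 := hl.add hl'
  rw [add_zero] at h1
  exact tendsto_of_tendsto_of_tendsto_of_le_of_le tendsto_const_nhds h1 (fun _ => bot_le)
    fun i => eLpNorm_add_le (hg i) (hh i) (one_le_ofReal hp)

/-- The core: `η S(φ_i) w_i → η S(u) v` in `L^p` along a subsequence. -/
theorem core {ν : Measure (E n)} {p : ℝ} (hp : 1 < p) {φ : ℕ → E n → ℝ} {w : ℕ → E n → E n}
    {u : E n → ℝ} {v : E n → E n} {S : ℝ → ℝ} {η : E n → ℝ} {K L : ℝ}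
    (hφ : ∀ i, AEStronglyMeasurable (φ i) ν) (hw : ∀ i, AEStronglyMeasurable (w i) ν)
    (hu : AEStronglyMeasurable u ν) (hv : MemLp v (ENNReal.ofReal p) ν)
    (hη : AEStronglyMeasurable η ν) (hK : ∀ x, |η x| ≤ K) (hS : Continuous S)
    (hL : ∀ t, |S t| ≤ L)
    (h1 : Tendsto (fun i => eLpNorm (fun x => φ i x - u x) (ENNReal.ofReal p) ν) atTop (𝓝 0))
    (h2 : Tendsto (fun i => eLpNorm (fun x => w i x - v x) (ENNReal.ofReal p) ν) atTop (𝓝 0)) :
    ∃ k : ℕ → ℕ, StrictMono k ∧ Tendsto (fun i => eLpNorm (fun x =>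
      (η x * S (φ (k i) x)) • w (k i) x - (η x * S (u x)) • v x) (ENNReal.ofReal p) ν)
      atTop (𝓝 0) := by
  have hp0 := ofReal_ne hp
  obtain ⟨k, hk, hae⟩ := (tendstoInMeasure_of_tendsto_eLpNorm hp0 hφ hu h1).exists_seq_tendsto_ae
  have hSm : ∀ f : E n → ℝ, AEStronglyMeasurable f ν → AEStronglyMeasurable (fun x => S (f x)) ν :=
    fun f hf => hS.comp_aestronglyMeasurable hf
  refine ⟨k, hk, ?_⟩
  have hA : Tendsto (fun i => eLpNorm (fun x => (η x * S (φ (k i) x)) • (w (k i) x - v x))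
      (ENNReal.ofReal p) ν) atTop (𝓝 0) := by
    refine tendsto_of_le (B := K * L) (fun i => Eventually.of_forall fun x => ?_)
      (h2.comp hk.tendsto_atTop)
    rw [norm_smul]
    refine mul_le_mul_of_nonneg_right ?_ (norm_nonneg _)
    rw [Real.norm_eq_abs, abs_mul]
    exact mul_le_mul (hK x) (hL _) (abs_nonneg _) ((abs_nonneg _).trans (hK x))
  have hB : Tendsto (fun i => eLpNorm (fun x => (η x * (S (φ (k i) x) - S (u x))) • v x)
      (ENNReal.ofReal p) ν) atTop (𝓝 0) := by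
    refine dom hp (B := K * (L + L)) (v := v) (fun i => ?_) hv (fun i => ?_) ?_
    · exact (hη.mul ((hSm _ (hφ _)).sub (hSm _ hu))).smul hv.1
    · refine Eventually.of_forall fun x => ?_
      rw [norm_smul]
      refine mul_le_mul_of_nonneg_right ?_ (norm_nonneg _)
      rw [Real.norm_eq_abs, abs_mul]
      refine mul_le_mul (hK x) ?_ (abs_nonneg _) ((abs_nonneg _).trans (hK x))
      exact (abs_sub _ _).trans (add_le_add (hL _) (hL _))
    · filter_upwards [hae] with x hx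
      have h3 : Tendsto (fun i => S (φ (k i) x)) atTop (𝓝 (S (u x))) :=
        (hS.tendsto _).comp hx
      have h4 := ((h3.sub_const (S (u x))).const_mul (η x)).smul_const (v x)
      simpa using h4
  have hC := tendsto_add hp (fun i => ?_) (fun i => ?_) hA hB
  · refine hC.congr fun i => ?_
    congr 1
    funext x
    rw [smul_sub, mul_sub, sub_smul]
    abel
  · exact (hη.mul (hSm _ (hφ _))).smul ((hw _).sub hv.1)
  · exact (hη.mul ((hSm _ (hφ _)).sub (hSm _ hu))).smul hv.1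

theorem measurable_grad (f : E n → ℝ) : Measurable fun x => ∇ f x :=
  (InnerProductSpace.toDual ℝ (E n)).symm.continuous.measurable.comp (measurable_fderiv ℝ f)

/-- functions which vanish outside `D` -/
theorem eLpNorm_restrict {F : Type} [NormedAddCommGroup F] {μ : Measure (E n)} {P : ENNReal}
    {D : Set (E n)} (hD : MeasurableSet D) {f : E n → F} (hf : ∀ x ∉ D, f x = 0) :
    eLpNorm f P μ = eLpNorm f P (μ.restrict D) := by
  rw [← eLpNorm_indicator_eq_eLpNorm_restrict hD]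
  congr 1
  exact (indicator_eq_self.2 fun x hx => by
    by_contra h
    exact hx (hf x h)).symm

theorem memLp_restrict {F : Type} [NormedAddCommGroup F] {μ : Measure (E n)} {P : ENNReal}
    {D : Set (E n)} (hD : MeasurableSet D) {f : E n → F} (hf : ∀ x ∉ D, f x = 0)
    (h : MemLp f P (μ.restrict D)) : MemLp f P μ := by
  have h1 := (memLp_indicator_iff_restrict (f := f) (p := P) (μ := μ) hD).2 h
  have h2 : D.indicator f = f := indicator_eq_self.2 fun x hx => by
    by_contra h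
    exact hx (hf x h)
  rwa [h2] at h1

end Pool.Agent.Lib.MP_abd978_an.H58
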